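import Pool.Agent.H68.LCS.Targets

/-!
# Board lpq_modules, row A_PRX: the pairs
-/

set_option autoImplicit false

namespace Pool.Agent.H89.LCS

open Set Filter Topology
open scoped Pointwise
open Pool.Agent.H93.CP Pool.Agent.H7.LP Pool.Agent.H7.LQ Pool.Agent.H68.LCS

theorem prx_nhd {G : Type} [Group G] [TopologicalSpace G] [IsTopologicalGroup G] (a : G)
    (O : Set G) (hO : IsOpen O) (ha : a ∈ O) :
    ∃ O' ∈ 𝓝 (1 : G), ∀ x ∈ O', ∀ y ∈ O', a * x⁻¹ * y ∈ O := by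
  have h1 : Continuous fun q : G × G => a * q.1⁻¹ * q.2 := by fun_prop
  have h2 : (fun q : G × G => a * q.1⁻¹ * q.2) ⁻¹' O ∈ 𝓝 ((1 : G), (1 : G)) := by
    refine (hO.preimage h1).mem_nhds ?_
    change a * (1 : G)⁻¹ * 1 ∈ O
    rw [inv_one, mul_one, mul_one]
    exact ha
  rw [nhds_prod_eq, mem_prod_iff] at h2
  obtain ⟨A, hA, B, hB, hAB⟩ := h2
  exact ⟨A ∩ B, inter_mem hA hB, fun x hx y hy => hAB (mk_mem_prod hx.1 hy.2)⟩

theorem pf_PRX (h1 : T_LCG) : T_PRX := by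
  intro G _ _ _ _ R H hP
  obtain ⟨L⟩ := h1 G R H hP
  have hne : Nonempty G := ⟨1⟩
  obtain ⟨g, hg⟩ := TopologicalSpace.exists_dense_seq G
  refine ⟨{
    U := fun k => {a | (g (Nat.unpair k).1)⁻¹ * a ∈ L.W (Nat.unpair k).2}
    D := fun k => (fun c => g (Nat.unpair k).1 * c) '' L.N (Nat.unpair k).2
    opn := ?_
    cpt := ?_
    cov := ?_
    bas := ?_ }⟩
  · intro k
    have h2 : Continuous fun a : G => (g (Nat.unpair k).1)⁻¹ * a := by fun_prop
    exact (L.opn _).preimage h2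
  · intro k
    exact (L.cpt _).image (by fun_prop)
  · intro k a ha
    obtain ⟨c, hc, r, hr, he⟩ := L.cov _ _ ha
    refine ⟨g (Nat.unpair k).1 * c, mem_image_of_mem _ hc, r, hr, ?_⟩
    rw [mul_assoc, ← he, mul_inv_cancel_left]
  · intro a O hO ha
    obtain ⟨O', hO', hax⟩ := prx_nhd a O hO ha
    obtain ⟨p, hp⟩ := L.sml O' hO'
    have h3 : Continuous fun x : G => x⁻¹ * a := by fun_prop
    have h4 : IsOpen ((fun x : G => x⁻¹ * a) ⁻¹' (L.W p ∩ interior O')) :=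
      ((L.opn p).inter isOpen_interior).preimage h3
    have h5 : a ∈ (fun x : G => x⁻¹ * a) ⁻¹' (L.W p ∩ interior O') := by
      change a⁻¹ * a ∈ L.W p ∩ interior O'
      rw [inv_mul_cancel]
      exact ⟨L.one p, mem_interior_iff_mem_nhds.2 hO'⟩
    obtain ⟨i, hi⟩ := hg.exists_mem_open h4 ⟨a, h5⟩
    have hi1 : (g i)⁻¹ * a ∈ L.W p := hi.1
    have hi2 : (g i)⁻¹ * a ∈ O' := interior_subset hi.2
    refine ⟨Nat.pair i p, ?_, ?_⟩
    · change (g (Nat.unpair (Nat.pair i p)).1)⁻¹ * a ∈ L.W (Nat.unpair (Nat.pair i p)).2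
      rw [Nat.unpair_pair]
      exact hi1
    · intro d hd
      change d ∈ (fun c => g (Nat.unpair (Nat.pair i p)).1 * c) ''
        L.N (Nat.unpair (Nat.pair i p)).2 at hd
      rw [Nat.unpair_pair] at hd
      obtain ⟨c, hc, rfl⟩ := hd
      obtain ⟨r, hr, hcr⟩ := hp c hc
      refine ⟨r, hr, ?_⟩
      have h6 := hax _ hi2 _ hcr
      have h7 : a * ((g i)⁻¹ * a)⁻¹ * (c * r) = g i * c * r := by group
      rw [h7] at h6
      exact h6

end Pool.Agent.H89.LCS
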